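import Pool.Agent.ASE.Stmts2b
import Pool.Agent.ASD.Stmts3

/-!
# Squad ASE, row RFH: the fields `e3`, `e4`, `e9`, `h1` at a reflection line
-/

open scoped BigOperators

set_option autoImplicit false
set_option linter.unusedSectionVars false

noncomputable section

namespace Pool.Agent.PP.SE.H38

open Pool.Agent.Helper51_AWC Pool.Agent.Helper79_WRA Pool.Agent.PP Pool.Agent.PP.KF
open Pool.Agent.PP.K9 Pool.Agent.PP.K9.H97 Pool.Agent.PP.H75 Pool.Agent.PP.T3 Pool.Agent.PP.SO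
open Pool.Agent.PP.SD

attribute [local instance] Ideal.Quotient.field

section local_ring

variable {M : Ideal (integralClosure ℤ ℂ)} [M.IsMaximal]

/-- natural numbers prime to `ℓ` are units of the local ring -/
theorem inv_mem {ℓ : ℕ} (hℓ : ℓ.Prime)
    (hM : (ℓ : integralClosure ℤ ℂ) ∈ M) {n : ℕ} (hn : ¬ ℓ ∣ n) : ((n : ℂ))⁻¹ ∈ RM M := by
  have h1 : rr M ((n : ℤ) : ℂ) ≠ 0 := by
    intro h
    exact hn (by exact_mod_cast (dvd_of_rr hℓ hM).1 h)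
  have h2 := (inv_RM (rr_int (M := M) (n : ℤ)).1 h1).1
  simpa using h2

/-- rational numbers with denominator prime to `ℓ` are in the local ring -/
theorem rl_mem {ℓ : ℕ} [Fact ℓ.Prime]
    (hM : (ℓ : integralClosure ℤ ℂ) ∈ M) {q : ℚ} (hq : q ∈ SOR.Rl ℓ) : (q : ℂ) ∈ RM M := by
  have h1 : ¬ ℓ ∣ q.den := hq
  rw [Rat.cast_def, div_eq_mul_inv]
  exact Subring.mul_mem _ (intCast_mem (RM M) _) (inv_mem Fact.out hM h1)

/-- `1 + ℓ q` is not zero -/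
theorem rl_ne {ℓ : ℕ} [Fact ℓ.Prime] {q : ℚ} (hq : q ∈ SOR.Rl ℓ) : (1 + ℓ * q : ℚ) ≠ 0 := by
  have hℓ : ℓ.Prime := Fact.out
  have h1 : ¬ ℓ ∣ q.den := hq
  intro h
  have hd : (q.den : ℚ) ≠ 0 := by exact_mod_cast q.den_nz
  have h2 : (q.den : ℚ) + ℓ * q.num = 0 := by
    have h3 : (q : ℚ) * q.den = q.num := Rat.mul_den_eq_num q
    have h4 : (q.den : ℚ) * (1 + ℓ * q) = q.den + ℓ * q.num := by
      rw [← h3]; ring
    rw [← h4, h, mul_zero]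
  have h5 : ((q.den : ℤ) + ℓ * q.num : ℤ) = 0 := by exact_mod_cast h2
  have h6 : (ℓ : ℤ) ∣ (q.den : ℤ) := by
    have : (q.den : ℤ) = ℓ * (-q.num) := by linarith
    rw [this]
    exact dvd_mul_right _ _
  exact h1 (by exact_mod_cast h6)

/-- `(1 + ℓ q)⁻¹` is in the local ring -/
theorem rl_inv {ℓ : ℕ} [Fact ℓ.Prime]
    (hM : (ℓ : integralClosure ℤ ℂ) ∈ M) {q : ℚ} (hq : q ∈ SOR.Rl ℓ) :
    (((1 + ℓ * q : ℚ) : ℂ))⁻¹ ∈ RM M := by
  have hℓ : ℓ.Prime := Fact.out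
  have h1 : ¬ ℓ ∣ q.den := hq
  have hd : (q.den : ℂ) ≠ 0 := by exact_mod_cast q.den_nz
  have hn : ¬ (ℓ : ℤ) ∣ ((q.den : ℤ) + ℓ * q.num) := by
    intro h
    have h2 : (ℓ : ℤ) ∣ (q.den : ℤ) := (Int.dvd_add_left (Dvd.intro _ rfl)).1 h
    exact h1 (by exact_mod_cast h2)
  have h3 : (((1 + ℓ * q : ℚ) : ℂ))⁻¹ = (q.den : ℂ) * (((q.den : ℤ) + ℓ * q.num : ℤ) : ℂ)⁻¹ := by
    have h4 : (((1 + ℓ * q : ℚ) : ℂ)) = (((q.den : ℤ) + ℓ * q.num : ℤ) : ℂ) * (q.den : ℂ)⁻¹ := by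
      push_cast
      rw [show (q : ℂ) = (q.num : ℂ) / (q.den : ℂ) from Rat.cast_def q]
      field_simp
    rw [h4, mul_inv, inv_inv, mul_comm]
  rw [h3]
  refine Subring.mul_mem _ (natCast_mem (RM M) _) ?_
  have h5 : rr M (((q.den : ℤ) + ℓ * q.num : ℤ) : ℂ) ≠ 0 := by
    intro h
    exact hn ((dvd_of_rr hℓ hM).1 h)
  exact (inv_RM (rr_int (M := M) _).1 h5).1

theorem sgn_mem {e : ℤ} (he : e = 1 ∨ e = -1) : (e : ℂ) ∈ RM M ∧ (e : ℂ) * e = 1 := by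
  rcases he with rfl | rfl
  · refine ⟨by rw [Int.cast_one]; exact one_mem _, by norm_num⟩
  · refine ⟨by rw [Int.cast_neg, Int.cast_one]; exact neg_mem (one_mem _), by norm_num⟩

end local_ring

section geo

variable {V₀ : Type} [CommGroup V₀] [Finite V₀] {ℓ : ℕ} [Fact ℓ.Prime]
  {E₀ : Subgroup (MulAut V₀)}

theorem ns_ndvd (hF : Fq ℓ V₀ E₀) (W : Subgroup V₀) : ¬ ℓ ∣ nS E₀ W := by
  intro h
  have h1 : St E₀ W ≤ E₀ := fun σ hσ => hσ.1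
  exact hF.cp (h.trans (Subgroup.card_dvd_of_le h1))

theorem rw_top (hF : Fq ℓ V₀ E₀) : Rw E₀ (⊤ : Subgroup V₀) := by
  refine ⟨?_, fun σ _ h => MulEquiv.ext fun v => h v (Subgroup.mem_top v)⟩
  intro h
  have hℓ : ℓ.Prime := Fact.out
  have h1 : Nat.card (⊤ : Subgroup V₀) = 1 := by rw [h]; simp
  rw [Subgroup.card_top, hF.cd] at h1
  have := hℓ.one_lt
  nlinarith

end geo

/-- the arithmetic of `h1` -/
theorem h1_aux {M : Ideal (integralClosure ℤ ℂ)} [M.IsMaximal] {e : ℤ} (he : e = 1 ∨ e = -1)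
    {w d n t x l u : ℂ} (hu0 : u ≠ 0) (h : (e : ℂ) * w * d / (n * t * x) = u)
    (hl : l ≠ 0) (ha : l ^ 2 * d / t ∈ RM M) (ha' : t / (l ^ 2 * d) ∈ RM M)
    (hu : u ∈ RM M) (hu' : u⁻¹ ∈ RM M) (hn : n ∈ RM M) (hn' : n⁻¹ ∈ RM M) :
    l ^ 2 * x / w ∈ RM M ∧ w / (l ^ 2 * x) ∈ RM M := by
  obtain ⟨hem, hee⟩ := sgn_mem (M := M) he
  have h1 : (e : ℂ) * w * d ≠ 0 := by
    intro h0
    rw [h0, zero_div] at h
    exact hu0 h.symm
  have h2 : n * t * x ≠ 0 := by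
    intro h0
    rw [h0, div_zero] at h
    exact hu0 h.symm
  have hw : w ≠ 0 := fun h0 => h1 (by rw [h0]; ring)
  have hd : d ≠ 0 := fun h0 => h1 (by rw [h0]; ring)
  have hn0 : n ≠ 0 := fun h0 => h2 (by rw [h0]; ring)
  have ht : t ≠ 0 := fun h0 => h2 (by rw [h0]; ring)
  have hx : x ≠ 0 := fun h0 => h2 (by rw [h0]; ring)
  have h3 : (e : ℂ) * w * d = u * (n * t * x) := by
    rw [div_eq_iff h2] at h
    exact h
  have h4 : w * d = (e : ℂ) * u * n * t * x := by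
    linear_combination (e : ℂ) * h3 - w * d * hee
  constructor
  · have : l ^ 2 * x / w = (e : ℂ) * (l ^ 2 * d / t) * n⁻¹ * u⁻¹ := by
      field_simp
      linear_combination -(e : ℂ) * h4 - u * n * t * x * hee
    rw [this]
    exact mul_mem (mul_mem (mul_mem hem ha) hn') hu'
  · have : w / (l ^ 2 * x) = (e : ℂ) * u * n * (t / (l ^ 2 * d)) := by
      field_simp
      linear_combination h4
    rw [this]
    exact mul_mem (mul_mem (mul_mem hem hu) hn) ha'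

theorem rfh (val : ValStmt) (dgd : SD.DgdStmt) (vxm : VxmStmt) : RfhStmt := by
  intro ℓ _ M _ hM h2 V₀ G _ _ _ _ E₀ hF B hB W hW N e O hC D hD
  have hℓ : ℓ.Prime := Fact.out
  have hl0 : (ℓ : ℂ) ≠ 0 := by exact_mod_cast hℓ.ne_zero
  obtain ⟨-, ⟨qU, hqU, hU⟩, -, hN, hX⟩ := val ℓ M hM h2 V₀ G E₀ hF B hB W hW N e O hC D hD
  have hsg : ∀ χ ∈ Ch B W, e χ = 1 ∨ e χ = -1 := by
    intro χ hχ
    obtain ⟨-, ⟨-, -, -, ⟨ν, hν, hχν⟩, -⟩, -⟩ := vxm ℓ M hM h2 V₀ G E₀ hF B hB W hW χ hχ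
    exact (hC.lv ν hν).sg χ hχν
  refine ⟨?_, ?_, ?_, ?_⟩
  · intro χ hχ hne c
    by_cases hm : χ ∈ N
    · exact (hN χ hχ hm).2 c
    · exact absurd (hX χ hχ hm).1 hne
  · intro χ hχ
    by_cases hm : χ ∈ N
    · obtain ⟨⟨u, ⟨q, hq, hu⟩, -, h3⟩, -⟩ := hN χ hχ hm
      rw [h3, hu, hU]
      have : (((nS E₀ W * ((1 + ℓ * q) - (1 + ℓ * qU)) : ℚ) : ℂ)) / ℓ =
          ((nS E₀ W * (q - qU) : ℚ) : ℂ) := by
        push_cast
        field_simp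
        ring
      rw [this]
      exact rl_mem hM (mul_mem (natCast_mem _ _) (sub_mem hq hqU))
    · rw [(hX χ hχ hm).1, zero_div]
      exact zero_mem _
  · intro χ hχ
    by_cases hm : χ ∈ N
    · obtain ⟨⟨u, -, -, h3⟩, -⟩ := hN χ hχ hm
      exact ⟨_, h3⟩
    · exact ⟨0, by rw [(hX χ hχ hm).1, Rat.cast_zero]⟩
  · intro χ hχ
    obtain ⟨ha, ha'⟩ := dgd ℓ M hM V₀ G E₀ hF B hB ⊤ (rw_top hF)
    by_cases hm : χ ∈ N
    · obtain ⟨⟨u, ⟨q, hq, hu⟩, h4, -⟩, -⟩ := hN χ hχ hm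
      have hu0 : (u : ℂ) ≠ 0 := by
        rw [hu]
        exact_mod_cast rl_ne hq
      refine h1_aux (hsg χ hχ) hu0 h4 hl0 ha ha' ?_ ?_ (natCast_mem _ _)
        (inv_mem hℓ hM (ns_ndvd hF W))
      · rw [hu]
        exact rl_mem hM (add_mem (one_mem _) (mul_mem (natCast_mem _ _) hq))
      · rw [hu]
        exact rl_inv hM hq
    · have h4 := hD.dU χ hχ hm
      have hu0 : (D.U W : ℂ) ≠ 0 := by
        rw [hU]
        exact_mod_cast rl_ne hqU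
      refine h1_aux (n := 1) (hsg χ hχ) hu0 (by rw [one_mul]; exact h4) hl0 ha ha' ?_ ?_
        (one_mem _) (by rw [inv_one]; exact one_mem _)
      · rw [hU]
        exact rl_mem hM (add_mem (one_mem _) (mul_mem (natCast_mem _ _) hqU))
      · rw [hU]
        exact rl_inv hM hqU

end Pool.Agent.PP.SE.H38
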