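import Pool.Agent.ASE.Stmts2b

/-!
# Squad ASE, row RFN: equivariance of the data at a reflection line
-/

open scoped BigOperators

set_option autoImplicit false
set_option linter.unusedSectionVars false

noncomputable section

namespace Pool.Agent.PP.SE.H38

open Pool.Agent.Helper51_AWC Pool.Agent.Helper79_WRA Pool.Agent.PP Pool.Agent.PP.KF
open Pool.Agent.PP.K9 Pool.Agent.PP.K9.H97 Pool.Agent.PP.H75 Pool.Agent.PP.T3 Pool.Agent.PP.SO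
open Pool.Agent.PP.SD

attribute [local instance] Ideal.Quotient.field

/-- conjugation of functions on `G` -/
def cg {G : Type} [Group G] (t : G) (χ : G → ℂ) : G → ℂ := fun g => χ (t⁻¹ * g * t)

theorem cg_inj {G : Type} [Group G] (t : G) : Function.Injective (cg t) := by
  intro χ ψ h
  funext g
  have h1 := congrFun h (t * g * t⁻¹)
  have h2 : t⁻¹ * (t * g * t⁻¹) * t = g := by group
  unfold cg at h1
  simpa only [h2] using h1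

theorem cg_one {G : Type} [Group G] (t : G) (χ : G → ℂ) : cg t χ 1 = χ 1 := by
  unfold cg
  rw [mul_one, inv_mul_cancel]

theorem cg_inv {G : Type} [Group G] (t : G) (χ : G → ℂ) (g : G) :
    cg t χ (t * g * t⁻¹)⁻¹ = χ g⁻¹ := by
  unfold cg
  have h : t⁻¹ * (t * g * t⁻¹)⁻¹ * t = g⁻¹ := by group
  rw [h]

theorem rfn (rfl' : RflStmt) (rfm : RfmStmt) (val : ValStmt) (geb : GebStmt) (acb : AcbStmt) :
    RfnStmt := by
  intro ℓ _ M _ hM h2 V₀ G _ _ _ _ E₀ hF B hB W hW σ hσ t ht htv N N' e e' O O' hC hC' hNN D hD hD'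
  obtain ⟨hL1, hL2⟩ := rfl' ℓ M hM h2 V₀ G E₀ hF B hB W hW σ hσ t ht htv
  have hM1 := rfm ℓ M hM h2 V₀ G E₀ hF B hB W hW σ hσ t ht htv N N' e e' O O' hC hC' hNN
  obtain ⟨⟨χ₀, hχ₀, hχ₀N⟩, -⟩ := val ℓ M hM h2 V₀ G E₀ hF B hB W hW N e O hC D hD
  obtain ⟨-, gns, -, -, gpr, -, -, gmp, -, -⟩ := geb ℓ V₀ E₀ σ hσ W
  obtain ⟨-, hac⟩ := acb ℓ M hM h2 V₀ G E₀ hF B hB.toSb
  obtain ⟨-, -, hA, hBij, -, -, hcard, -⟩ := hac W σ hσ
  have hN : ∀ χ ∈ Ch B W, (cg t χ ∈ N' ↔ χ ∈ N) := hNN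
  have he : ∀ χ ∈ Ch B W, e' (cg t χ) = e χ := fun χ hχ => (hM1 χ hχ).1
  have hO : ∀ χ ∈ Ch B W, χ ∉ N → O' (cg t χ) = {s | (fun v => s (σ v)) ∈ O χ} :=
    fun χ hχ => (hM1 χ hχ).2
  have hCh : ∀ χ ∈ Ch B W, cg t χ ∈ Ch B (mp σ W) := fun χ hχ => (hL1 χ hχ).1
  have hacg : ∀ χ ∈ Ch B W, ac B σ χ = cg t χ := fun χ hχ => (hL1 χ hχ).2.1
  have hrq : ∀ χ ∈ Ch B W, ∀ ψ ∈ Ch B W,
      (rq ℓ B (mp σ W) (cg t χ) (cg t ψ) ↔ rq ℓ B W χ ψ) := fun χ hχ => (hL1 χ hχ).2.2.2.1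
  have hnu : ∀ χ ∈ Ch B W, ∀ w, nu B (cg t χ) (σ w) = nu B χ w := by
    intro χ hχ w
    rw [← hacg χ hχ]
    exact (hA χ hχ).2.2.2.1 w
  have hU : D.U (mp σ W) = D.U W := by
    have h1 := hD.dU χ₀ hχ₀ hχ₀N
    have h3 := hD'.dU (cg t χ₀) (hCh χ₀ hχ₀) (fun h => hχ₀N ((hN χ₀ hχ₀).1 h))
    rw [he χ₀ hχ₀, hcard, cg_one, h1] at h3
    exact_mod_cast h3.symm
  refine ⟨hU, ?_, ?_, ?_⟩
  · intro g
    rw [hD'.de, hD.de]
    symm
    refine finsum_mem_eq_of_bijOn (cg t) ⟨?_, (cg_inj t).injOn, ?_⟩ ?_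
    · rintro χ ⟨hχ, hm⟩
      exact ⟨hCh χ hχ, (hN χ hχ).2 hm⟩
    · rintro χ' ⟨hχ', hm⟩
      obtain ⟨χ, hχ, rfl⟩ := hL2 χ' hχ'
      exact ⟨χ, ⟨hχ, (hN χ hχ).1 hm⟩, rfl⟩
    · rintro χ ⟨hχ, hm⟩
      rw [he χ hχ, hcard, cg_one, gns, hU, cg_inv]
  · intro g hg hgW
    have hgσ : σ * g * σ⁻¹ ∈ E₀ := E₀.mul_mem (E₀.mul_mem hσ hg) (E₀.inv_mem hσ)
    have hmp : mp (σ * g * σ⁻¹) (mp σ W) = mp σ W := by
      have h1 := (geb ℓ V₀ E₀ (σ * g * σ⁻¹) hgσ W).2.2.2.2.2.2.2.1 σ hσ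
      have h3 := (geb ℓ V₀ E₀ σ hσ W).2.2.2.2.2.2.2.1 g hg
      rw [h1, inv_mul_cancel_right, ← h3, hgW]
    rw [hD'.df _ hgσ hmp, hD.df _ hg hgW]
    have hacc : ∀ χ ∈ Ch B W, (ac B (σ * g * σ⁻¹) (cg t χ) = cg t χ ↔ ac B g χ = χ) := by
      intro χ hχ
      have h1 : ac B (σ * g * σ⁻¹) (ac B σ χ) = ac B σ (ac B g χ) := by
        have h3 := (hA χ hχ).2.2.1 (σ * g * σ⁻¹) hgσ
        have h4 := ((hac W g hg).2.2.1 χ hχ).2.2.1 σ hσ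
        rw [← h3, ← h4, inv_mul_cancel_right]
      rw [← hacg χ hχ, h1]
      have h5 : ac B g χ ∈ Ch B W := by
        have := ((hac W g hg).2.2.1 χ hχ).1
        rwa [hgW] at this
      exact ⟨fun h => hBij.injOn h5 hχ h, fun h => by rw [h]⟩
    have himg : {χ | χ ∈ Iv B (mp σ W) (fun _ => 1) ∧ χ ∈ N' ∧ ac B (σ * g * σ⁻¹) χ = χ} =
        cg t '' {χ | χ ∈ Iv B W (fun _ => 1) ∧ χ ∈ N ∧ ac B g χ = χ} := by
      ext χ'
      constructor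
      · rintro ⟨⟨hχ', hnu'⟩, hm, hfix⟩
        obtain ⟨χ, hχ, rfl⟩ := hL2 χ' hχ'
        refine ⟨χ, ⟨⟨hχ, ?_⟩, (hN χ hχ).1 hm, (hacc χ hχ).1 hfix⟩, rfl⟩
        intro w hw
        rw [← hnu χ hχ w]
        exact hnu' (σ w) ⟨w, hw, rfl⟩
      · rintro ⟨χ, ⟨⟨hχ, hnu'⟩, hm, hfix⟩, rfl⟩
        refine ⟨⟨hCh χ hχ, ?_⟩, (hN χ hχ).2 hm, (hacc χ hχ).2 hfix⟩
        rintro w ⟨w', hw', rfl⟩
        exact (hnu χ hχ w').trans (hnu' w' hw')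
    rw [himg, Set.ncard_image_of_injective _ (cg_inj t)]
  · intro χ hχ ψ hψ
    constructor
    · intro x
      show D.D (mp σ W) (cg t χ) (σ x) = D.D W χ x
      rw [hD'.dD _ (hCh χ hχ), hD.dD χ hχ, gpr, hnu χ hχ, he χ hχ]
      by_cases hm : χ ∈ N
      · rw [if_pos hm, if_pos ((hN χ hχ).2 hm)]
      · rw [if_neg hm, if_neg (fun h => hm ((hN χ hχ).1 h)), hO χ hχ hm]
        have hsum : ∑ᶠ s ∈ {s : V₀ → ℂ | (fun v => s (σ v)) ∈ O χ}, s (σ x) =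
            ∑ᶠ s ∈ O χ, s x := by
          refine finsum_mem_eq_of_bijOn (fun s v => s (σ v)) ⟨fun s hs => hs, ?_, ?_⟩
            (fun s _ => rfl)
          · intro s _ s' _ h
            funext v
            have h1 := congrFun h (σ⁻¹ v)
            have h3 : σ (σ⁻¹ v) = v := MulAut.apply_inv_self _ σ v
            simp only [h3] at h1
            exact h1
          · intro s hs
            refine ⟨fun v => s (σ⁻¹ v), ?_, ?_⟩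
            · show (fun v => s (σ⁻¹ (σ v))) ∈ O χ
              have h3 : (fun v => s (σ⁻¹ (σ v))) = s := by
                funext v
                rw [MulAut.inv_apply_self]
              rw [h3]
              exact hs
            · funext v
              show s (σ⁻¹ (σ v)) = s v
              rw [MulAut.inv_apply_self]
        rw [hsum]
    · show D.R (mp σ W) (cg t χ) (cg t ψ) = D.R W χ ψ
      rw [hD'.dR _ (hCh χ hχ) _ (hCh ψ hψ), hD.dR χ hχ ψ hψ, he χ hχ, he ψ hψ, gns]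
      by_cases hm : χ ∈ N ∧ ψ ∈ N
      · rw [if_pos hm, if_pos ⟨(hN χ hχ).2 hm.1, (hN ψ hψ).2 hm.2⟩]
        by_cases hr : rq ℓ B W χ ψ
        · rw [if_pos hr, if_pos ((hrq χ hχ ψ hψ).2 hr)]
        · rw [if_neg hr, if_neg (fun h => hr ((hrq χ hχ ψ hψ).1 h))]
      · rw [if_neg hm, if_neg (fun h => hm ⟨(hN χ hχ).1 h.1, (hN ψ hψ).1 h.2⟩)]

end Pool.Agent.PP.SE.H38
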